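import Pool.Agent.H516R2.FP.Props

/-!
# FP, task A1: counting in the blocks (helper966)
-/

set_option autoImplicit false

namespace Pool.Agent.H516R2.FP

open Pool.Agent.NPC Pool.Agent.H620R2.Gauge Finset H568R2 Pool.Agent.H676 Pool.Agent.H516R2.EQP
  Pool.Agent.H516R2.EQP2 Pool.Agent.H516R2.EQP3 Pool.Agent.H516R2.EQP4 Pool.Agent.H591R3.PHG

theorem a1_sg_xor (a b : Bool) : sg (a ^^ b) = sg a * sg b := by
  cases a <;> cases b <;> simp [sg]

theorem a1_prod (n : ℕ) (g : ℕ → Bool) :
    ∏ k : Fin n, sg (g k.val) = sg ((List.range n).foldl (fun b k => b ^^ g k) false) := by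
  induction n with
  | zero => simp [sg]
  | succ n ih =>
    rw [Fin.prod_univ_castSucc, List.range_succ, List.foldl_append]
    simp only [List.foldl_cons, List.foldl_nil, Fin.val_castSucc, Fin.val_last]
    rw [ih, a1_sg_xor]

theorem a1_getD {n : ℕ} (i : Fin n → Bool) (k : Fin n) :
    (List.ofFn i).getD k.val false = i k := by
  rw [List.getD_eq_getElem _ _ (by simp), List.getElem_ofFn]

theorem a1_zr (κ : ℕ) (i j : Fin (3 + 3 * κ) → Bool)
    (h : zr κ (List.ofFn i) (List.ofFn j) = true) :
    ∏ k, Kb (decide (3 + κ ≤ k.val)) (i k) (j k) = 0 := by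
  unfold zr at h
  rw [List.any_eq_true] at h
  obtain ⟨k, hk, h1⟩ := h
  rw [List.mem_range] at hk
  rw [Bool.and_eq_true, decide_eq_true_eq] at h1
  obtain ⟨h2, h3⟩ := h1
  have e1 := a1_getD i ⟨k, hk⟩
  have e2 := a1_getD j ⟨k, hk⟩
  simp only at e1 e2
  rw [e1, e2] at h3
  refine Finset.prod_eq_zero (Finset.mem_univ ⟨k, hk⟩) ?_
  have h4 : decide (3 + κ ≤ k) = false := by
    rw [decide_eq_false_iff_not]
    omega
  simp only [h4]
  unfold Kb
  have h5 : i ⟨k, hk⟩ ≠ j ⟨k, hk⟩ := by
    intro e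
    rw [e] at h3
    simp at h3
  simp [h5]

theorem a1_sgn (κ : ℕ) (i j : Fin (3 + 3 * κ) → Bool)
    (h : zr κ (List.ofFn i) (List.ofFn j) = false) :
    ∏ k, Kb (decide (3 + κ ≤ k.val)) (i k) (j k) = sg (sgn κ (List.ofFn i) (List.ofFn j)) := by
  unfold sgn
  rw [← a1_prod (3 + 3 * κ) (fun k => decide (3 + κ ≤ k) &&
    (((List.ofFn i).getD k false ^^ (List.ofFn j).getD k false) ^^
      ((List.ofFn i).getD k false && (List.ofFn j).getD k false)))]
  refine Finset.prod_congr rfl fun k _ => ?_
  simp only [a1_getD i k, a1_getD j k]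
  by_cases hk : 3 + κ ≤ k.val
  · have h4 : decide (3 + κ ≤ k.val) = true := by simpa using hk
    rw [h4]
    unfold Kb
    simp only [if_true, Bool.true_and]
    rw [a1_sg_xor, a1_sg_xor]
  · have h4 : decide (3 + κ ≤ k.val) = false := by simpa using hk
    rw [h4]
    unfold Kb
    have h5 : i k = j k := by
      unfold zr at h
      rw [List.any_eq_false] at h
      have h6 := h k.val (List.mem_range.2 k.2)
      rw [a1_getD i k, a1_getD j k] at h6
      have h7 : decide (k.val < 3 + κ) = true := by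
        rw [decide_eq_true_eq]
        omega
      rw [h7, Bool.true_and] at h6
      revert h6
      cases i k <;> cases j k <;> simp
    simp [h5, sg]

theorem a1_acc (κ : ℕ) (A : Oracle) (i j : Fin (3 + 3 * κ) → Bool) (b : Bool) :
    acc κ A (b :: (List.ofFn i ++ List.ofFn j)) =
      if zr κ (List.ofFn i) (List.ofFn j) then b else
        !(sgn κ (List.ofFn i) (List.ofFn j) ^^
          (A (false :: List.ofFn i) ^^ A (true :: List.ofFn j))) := by
  have h1 : ((b :: (List.ofFn i ++ List.ofFn j)).drop 1).take (3 + 3 * κ) = List.ofFn i := by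
    simp only [List.drop_succ_cons, List.drop_zero]
    exact List.take_left' (by simp)
  have h2 : (b :: (List.ofFn i ++ List.ofFn j)).drop (4 + 3 * κ) = List.ofFn j := by
    have e : 4 + 3 * κ = (3 + 3 * κ) + 1 := by omega
    rw [e, List.drop_succ_cons]
    exact List.drop_left' (by simp)
  unfold acc
  rw [h1, h2]
  simp

theorem a1_one (κ : ℕ) (A : Oracle) (i j : Fin (3 + 3 * κ) → Bool) :
    (∑ b : Bool, (if acc κ A (b :: (List.ofFn i ++ List.ofFn j)) = true then (1 : ℝ) else 0)) =
      1 + (∏ k, Kb (decide (3 + κ ≤ k.val)) (i k) (j k)) *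
        (sg (A (false :: List.ofFn i)) * sg (A (true :: List.ofFn j))) := by
  simp only [a1_acc, Fintype.sum_bool]
  by_cases h : zr κ (List.ofFn i) (List.ofFn j) = true
  · rw [a1_zr κ i j h]
    simp [h]
  · have h' : zr κ (List.ofFn i) (List.ofFn j) = false := by simpa using h
    rw [a1_sgn κ i j h', ← a1_sg_xor, ← a1_sg_xor, h']
    simp only [Bool.false_eq_true, if_false]
    cases (sgn κ (List.ofFn i) (List.ofFn j) ^^
      (A (false :: List.ofFn i) ^^ A (true :: List.ofFn j))) <;> simp [sg]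

theorem a1_card (n m : ℕ) (hm : m = (n + n) + 1) (P : List Bool → Bool) :
    (Nat.card {w : Fin m → Bool // P (List.ofFn w) = true} : ℝ) =
      ∑ i : Fin n → Bool, ∑ j : Fin n → Bool, ∑ b : Bool,
        (if P (b :: (List.ofFn i ++ List.ofFn j)) = true then (1 : ℝ) else 0) := by
  subst hm
  rw [Nat.card_eq_fintype_card, Fintype.card_subtype, Finset.card_filter]
  push_cast
  rw [← (Fin.consEquiv (fun _ : Fin (n + n + 1) => Bool)).sum_comp, Fintype.sum_prod_type]
  have h1 : ∀ (b : Bool) (v : Fin (n + n) → Bool),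
      (if P (List.ofFn (Fin.consEquiv (fun _ : Fin (n + n + 1) => Bool) (b, v))) = true
        then (1 : ℝ) else 0) = if P (b :: List.ofFn v) = true then (1 : ℝ) else 0 := by
    intro b v
    have e : List.ofFn (Fin.consEquiv (fun _ : Fin (n + n + 1) => Bool) (b, v)) =
        b :: List.ofFn v := by
      rw [List.ofFn_succ]
      rfl
    rw [e]
  simp only [h1]
  have h2 : ∀ b : Bool, (∑ v : Fin (n + n) → Bool,
      (if P (b :: List.ofFn v) = true then (1 : ℝ) else 0)) =
      ∑ i : Fin n → Bool, ∑ j : Fin n → Bool,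
        (if P (b :: (List.ofFn i ++ List.ofFn j)) = true then (1 : ℝ) else 0) := by
    intro b
    rw [← (Fin.appendEquiv n n (α := Bool)).sum_comp, Fintype.sum_prod_type]
    refine Finset.sum_congr rfl fun i _ => Finset.sum_congr rfl fun j _ => ?_
    have e : List.ofFn (Fin.appendEquiv n n (α := Bool) (i, j)) = List.ofFn i ++ List.ofFn j :=
      List.ofFn_fin_append i j
    rw [e]
  simp only [h2]
  rw [Finset.sum_comm]
  refine Finset.sum_congr rfl fun i _ => ?_
  rw [Finset.sum_comm]

/-- Task A1 -/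
theorem A1 : St_A1 := by
  intro κ A
  rw [a1_card (3 + 3 * κ) (7 + 6 * κ) (by ring) (acc κ A)]
  simp only [a1_one]
  simp only [Finset.sum_add_distrib]
  unfold alpha
  rw [div_mul_cancel₀ _ (by positivity)]
  congr 1
  simp only [Finset.sum_const, Finset.card_univ, Fintype.card_fun, Fintype.card_bool,
    Fintype.card_fin, nsmul_eq_mul, mul_one]
  push_cast
  rw [← pow_add]
  congr 1
  ring

end Pool.Agent.H516R2.FP
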