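import Pool.Agent.H516R2.FP.Props
import Pool.Agent.H516R2.EQP4.QUg
import Pool.Agent.H620R2.Gauge.A2

/-!
# Four patterns, task A2: the test is an oracle algorithm
-/

set_option autoImplicit false

namespace Pool.Agent.H516R2.FP

open Pool.Agent.NPC Pool.Agent.H620R2.Gauge Finset H568R2 Pool.Agent.H676 Pool.Agent.H516R2.EQP
  Pool.Agent.H516R2.EQP2 Pool.Agent.H516R2.EQP3 Pool.Agent.H516R2.EQP4 Pool.Agent.H591R3.PHG

/-! ### Polynomial time: initial and final segments -/

theorem A2_drop {α β : Type} [TEnc α] [TEnc β] {l : α → List β} {n : α → ℕ}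
    (hl : NPC.Poly l) (hn : UPoly n) : NPC.Poly (fun a => (l a).drop (n a)) := by
  obtain ⟨q, hq⟩ := hl.sz_le
  have key : ∀ (k : ℕ) (s : List β), (List.tail)^[k] s = s.drop k := by
    intro k
    induction k with
    | zero => intro s; rfl
    | succ k ih => intro s; rw [Function.iterate_succ_apply, ih, List.drop_tail]
  refine (NPC.Poly.iterLen (l := fun a => List.replicate (n a) ()) (s := l)
    (F := fun (_ : α) (s : List β) => s.tail) hn hl (NPC.Poly.tail (NPC.Poly.snd NPC.Poly.id)) q
    ?_).congr fun a => ?_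
  · intro a k _
    show sz ((List.tail)^[k] (l a)) ≤ _
    rw [key]
    exact (NPC.Poly.sz_drop_le _ _).trans (hq a)
  · show (List.tail)^[(List.replicate (n a) ()).length] (l a) = _
    rw [key, List.length_replicate]

theorem A2_take_key {β : Type} : ∀ (l : List β) (n : ℕ),
    (l.zip (List.replicate n ())).map Prod.fst = l.take n := by
  intro l
  induction l with
  | nil => intro n; simp
  | cons b l ih =>
    intro n
    cases n with
    | zero => simp
    | succ n =>
      rw [List.replicate_succ, List.zip_cons_cons, List.map_cons, ih, List.take_succ_cons]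

theorem A2_take {α β : Type} [TEnc α] [TEnc β] {l : α → List β} {n : α → ℕ}
    (hl : NPC.Poly l) (hn : UPoly n) : NPC.Poly (fun a => (l a).take (n a)) :=
  (NPC.Poly.map (F := fun (_ : α) (p : β × Unit) => p.1)
    (NPC.Poly.zip hl (l' := fun a => List.replicate (n a) ()) hn)
    (NPC.Poly.fst (NPC.Poly.snd NPC.Poly.id))).congr fun a => A2_take_key (l a) (n a)

/-! ### Polynomial time: the padding -/

theorem A2_pow (c : ℕ) : UPoly (fun v : List Bool => v.length ^ c) := by
  induction c with
  | zero => exact (UPoly.const 1)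
  | succ c ih => exact UPoly.mul ih QC_len

theorem A2_padc (K : ℕ) : NPC.Poly (padc K) := by
  have h1 : NPC.Poly (fun v : List Bool => List.replicate (v.length ^ K) false) :=
    (NPC.Poly.map (F := fun (_ : List Bool) (_ : Unit) => false) (A2_pow K)
      (NPC.Poly.const false)).congr fun u => by simp
  have h2 : NPC.Poly (fun v : List Bool =>
      false :: (v ++ true :: List.replicate (v.length ^ K) false)) :=
    NPC.Poly.cons (NPC.Poly.const false) (NPC.Poly.append NPC.Poly.id
      (NPC.Poly.cons (NPC.Poly.const true) h1))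
  exact h2

/-! ### The parts of the input -/

section parts

variable {α : Type} [TEnc α] {f : α → List Bool}

theorem A2_w (hf : NPC.Poly f) : NPC.Poly (fun a => (unpair (f a)).1) :=
  NPC.Poly.fst (NPC.Poly.comp poly_unpair hf)

theorem A2_x (hf : NPC.Poly f) : NPC.Poly (fun a => (unpair (f a)).2) :=
  NPC.Poly.snd (NPC.Poly.comp poly_unpair hf)

theorem A2_u (hf : NPC.Poly f) : NPC.Poly (fun a => ub (unpair (f a)).2) :=
  NPC.Poly.cons (NPC.Poly.const false) (NPC.Poly.cons (NPC.Poly.const false) (A2_x hf))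

theorem A2_k (hf : NPC.Poly f) : UPoly (fun a => kap (ub (unpair (f a)).2)) :=
  UPoly.comp QU_kap (A2_u hf)

theorem A2_k3 (hf : NPC.Poly f) : UPoly (fun a => 3 + 3 * kap (ub (unpair (f a)).2)) :=
  UPoly.add (UPoly.const 3) (UPoly.mul (UPoly.const 3) (A2_k hf))

theorem A2_I (hf : NPC.Poly f) : NPC.Poly (fun a =>
    ((unpair (f a)).1.drop 1).take (3 + 3 * kap (ub (unpair (f a)).2))) :=
  A2_take (A2_drop (A2_w hf) (UPoly.const 1)) (A2_k3 hf)

theorem A2_J (hf : NPC.Poly f) : NPC.Poly (fun a =>
    (unpair (f a)).1.drop (4 + 3 * kap (ub (unpair (f a)).2))) :=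
  A2_drop (A2_w hf) (UPoly.add (UPoly.const 4) (UPoly.mul (UPoly.const 3) (A2_k hf)))

end parts

theorem A2_zr {α : Type} [TEnc α] {k : α → ℕ} {i j : α → List Bool} (hk : UPoly k)
    (hi : NPC.Poly i) (hj : NPC.Poly j) : NPC.Poly (fun a => zr (k a) (i a) (j a)) := by
  have hid : NPC.Poly (fun p : α × ℕ => p.2) := NPC.Poly.snd NPC.Poly.id
  have h1 : NPC.Poly (fun p : α × ℕ => p.1) := NPC.Poly.fst NPC.Poly.id
  have h : NPC.Poly (fun a => (List.range (3 + 3 * k a)).any (fun m =>
      decide (m < 3 + k a) && ((i a).getD m false ^^ (j a).getD m false))) := by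
    refine NPC.Poly.any (l := fun a => List.range (3 + 3 * k a))
      (p := fun a m => decide (m < 3 + k a) && ((i a).getD m false ^^ (j a).getD m false))
      (UPoly.range (UPoly.add (UPoly.const 3) (UPoly.mul (UPoly.const 3) hk))) ?_
    refine NPC.Poly.and (NPC.Poly.decide_lt hid ?_) (NPC.Poly.xor ?_ ?_)
    · exact (UPoly.toPoly (UPoly.add (UPoly.const 3) hk)).comp h1
    · exact NPC.Poly.getD (hi.comp h1) hid (NPC.Poly.const false)
    · exact NPC.Poly.getD (hj.comp h1) hid (NPC.Poly.const false)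
  exact h

theorem A2_sgn {α : Type} [TEnc α] {k : α → ℕ} {i j : α → List Bool} (hk : UPoly k)
    (hi : NPC.Poly i) (hj : NPC.Poly j) : NPC.Poly (fun a => sgn (k a) (i a) (j a)) := by
  have h1 : NPC.Poly (fun p : α × Bool × ℕ => p.1) := NPC.Poly.fst NPC.Poly.id
  have hid : NPC.Poly (fun p : α × Bool × ℕ => p.2.2) := NPC.Poly.snd (NPC.Poly.snd NPC.Poly.id)
  have hb : NPC.Poly (fun p : α × Bool × ℕ => p.2.1) := NPC.Poly.fst (NPC.Poly.snd NPC.Poly.id)
  have h : NPC.Poly (fun a => (List.range (3 + 3 * k a)).foldl (fun b m => b ^^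
      (decide (3 + k a ≤ m) && (((i a).getD m false ^^ (j a).getD m false) ^^
        ((i a).getD m false && (j a).getD m false)))) false) := by
    refine NPC.Poly.foldl (l := fun a => List.range (3 + 3 * k a)) (s := fun _ => false)
      (F := fun a b m => b ^^
      (decide (3 + k a ≤ m) && (((i a).getD m false ^^ (j a).getD m false) ^^
        ((i a).getD m false && (j a).getD m false))))
      (UPoly.range (UPoly.add (UPoly.const 3) (UPoly.mul (UPoly.const 3) hk)))
      (NPC.Poly.const false) ?_ (Polynomial.C 3) ?_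
    · have gi := NPC.Poly.getD (hi.comp h1) hid (NPC.Poly.const false)
      have gj := NPC.Poly.getD (hj.comp h1) hid (NPC.Poly.const false)
      exact NPC.Poly.xor hb (NPC.Poly.and (NPC.Poly.decide_le
        ((UPoly.toPoly (UPoly.add (UPoly.const 3) hk)).comp h1) hid)
        (NPC.Poly.xor (NPC.Poly.xor gi gj) (NPC.Poly.and gi gj)))
    · intro a m _
      rw [Polynomial.eval_C]
      exact sz_bool_le _
  exact h

/-- the questions -/
def A2_Q (K : ℕ) (y : List Bool) : List (List Bool) :=
  [padc K (false :: false :: (ub (unpair y).2 ++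
      (false :: ((unpair y).1.drop 1).take (3 + 3 * kap (ub (unpair y).2))))),
    padc K (false :: false :: (ub (unpair y).2 ++
      (true :: (unpair y).1.drop (4 + 3 * kap (ub (unpair y).2)))))]

/-- the final computation -/
def A2_H (p : List Bool × List Bool) : List Bool :=
  [if zr (kap (ub (unpair p.1).2))
      (((unpair p.1).1.drop 1).take (3 + 3 * kap (ub (unpair p.1).2)))
      ((unpair p.1).1.drop (4 + 3 * kap (ub (unpair p.1).2))) then (unpair p.1).1.getD 0 false else
    !(sgn (kap (ub (unpair p.1).2))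
      (((unpair p.1).1.drop 1).take (3 + 3 * kap (ub (unpair p.1).2)))
      ((unpair p.1).1.drop (4 + 3 * kap (ub (unpair p.1).2))) ^^
      (p.2.getD 0 false ^^ p.2.getD 1 false))]

theorem A2_QP (K : ℕ) : NPC.Poly (A2_Q K) := by
  have hid : NPC.Poly (fun y : List Bool => y) := NPC.Poly.id
  have h : ∀ (b : Bool) (z : List Bool → List Bool), NPC.Poly z →
      NPC.Poly (fun y : List Bool => padc K (false :: false :: (ub (unpair y).2 ++
        (b :: z y)))) := fun b z hz =>
    (A2_padc K).comp (NPC.Poly.cons (NPC.Poly.const false) (NPC.Poly.cons (NPC.Poly.const false)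
      (NPC.Poly.append (A2_u hid) (NPC.Poly.cons (NPC.Poly.const b) hz))))
  exact NPC.Poly.cons (h false _ (A2_I hid)) (NPC.Poly.cons (h true _ (A2_J hid))
    (NPC.Poly.const []))

theorem A2_HP : NPC.Poly A2_H := by
  have h1 : NPC.Poly (fun p : List Bool × List Bool => p.1) := NPC.Poly.fst NPC.Poly.id
  have h2 : NPC.Poly (fun p : List Bool × List Bool => p.2) := NPC.Poly.snd NPC.Poly.id
  have hz := A2_zr (A2_k h1) (A2_I h1) (A2_J h1)
  have hs := A2_sgn (A2_k h1) (A2_I h1) (A2_J h1)
  have hw := NPC.Poly.getD (A2_w h1) (NPC.Poly.const 0) (NPC.Poly.const false)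
  have g0 := NPC.Poly.getD h2 (NPC.Poly.const 0) (NPC.Poly.const false)
  have g1 := NPC.Poly.getD h2 (NPC.Poly.const 1) (NPC.Poly.const false)
  exact NPC.Poly.cons (NPC.Poly.ite (NPC.Poly.decide_bool hz) hw
    (NPC.Poly.not (NPC.Poly.xor hs (NPC.Poly.xor g0 g1)))) (NPC.Poly.const [])

theorem A2 : St_A2 := by
  intro K A
  have h := IsFP.tt (A := A) (A2_QP K) A2_HP
  exact h

end Pool.Agent.H516R2.FP
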