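import Pool.Agent.H516R2.FP.Props
import Pool.Agent.H943R3.PP.N2

/-!
# Task A3: the blocks with positive `alpha` are recognized with polynomial memory
-/

set_option autoImplicit false

namespace Pool.Agent.H516R2.FP

open Pool.Agent.NPC Pool.Agent.H620R2.Gauge Finset H568R2 Pool.Agent.H676 Pool.Agent.H516R2.EQP
  Pool.Agent.H516R2.EQP2 Pool.Agent.H516R2.EQP3 Pool.Agent.H516R2.EQP4 Pool.Agent.H591R3.PHG

theorem A3 (h1 : St_A1) (h2 : St_A2) : St_A3 := by
  intro K A
  obtain ⟨V, hVdef⟩ : ∃ V : List Bool → List Bool, V = fun y =>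
    [acc (kap (ub (unpair y).2)) (blo K A (unpair y).2) (unpair y).1] := ⟨_, rfl⟩
  have hV : IsFP A V := by
    rw [hVdef]
    exact h2 K A
  have h3 : IsPSPACE A {z | V z = [true]} := IsP.isPSPACE ⟨V, hV, fun x => Iff.rfl⟩
  have hβ : UPoly (fun x : List Bool => 7 + 6 * kap (ub x)) := by
    have e : (fun x : List Bool => 7 + 6 * kap (ub x)) =
        fun x => (Polynomial.C 96 * Polynomial.X + Polynomial.C 295 : Polynomial ℕ).eval x.length := by
      funext x
      simp only [Polynomial.eval_add, Polynomial.eval_mul, Polynomial.eval_C, Polynomial.eval_X]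
      unfold kap mu ub
      simp only [List.length_cons]
      ring
    rw [e]
    exact UPoly.eval (UPoly.length Poly.id) _
  have h4 := Pool.Agent.H943R3.PP.N2.majority h3 hβ
  have e : {y : List Bool | 2 ^ (7 + 6 * kap (ub y)) <
      2 * Pool.Agent.H943R3.PP.N2.cc (7 + 6 * kap (ub y)) y {z | V z = [true]}
        (2 ^ (7 + 6 * kap (ub y) + 1))} = {x | 0 < alpha (blo K A x) (kap (ub x))} := by
    ext x
    rw [Set.mem_ofPred_eq, Set.mem_ofPred_eq, ← Pool.Agent.H943R3.PP.N2.card_eq_cc]
    have h5 := h1 (kap (ub x)) (blo K A x)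
    have h6 : ∀ w : Fin (7 + 6 * kap (ub x)) → Bool, (V (pairBits (List.ofFn w) x) = [true]) =
        (acc (kap (ub x)) (blo K A x) (List.ofFn w) = true) := by
      intro w
      rw [hVdef]
      simp only [unpair_pairBits, List.cons.injEq, and_true]
    simp only [h6]
    generalize Nat.card {w : Fin (7 + 6 * kap (ub x)) → Bool //
      acc (kap (ub x)) (blo K A x) (List.ofFn w) = true} = c at h5 ⊢
    generalize alpha (blo K A x) (kap (ub x)) = α at h5 ⊢
    generalize kap (ub x) = κ at h5 ⊢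
    have hpos : (0 : ℝ) < 2 ^ (3 + 3 * κ) * 2 ^ κ := by positivity
    have e7 : (2 : ℝ) ^ (7 + 6 * κ) = 2 * 2 ^ (6 + 6 * κ) := by
      rw [show 7 + 6 * κ = (6 + 6 * κ) + 1 by ring, pow_succ]
      ring
    have h7 : (2 ^ (7 + 6 * κ) < 2 * c) ↔ ((2 : ℝ) ^ (7 + 6 * κ) < 2 * (c : ℝ)) := by
      constructor
      · intro h
        exact_mod_cast h
      · intro h
        exact_mod_cast h
    rw [h7, h5, e7]
    constructor
    · intro h
      by_contra hα
      have : α * (2 ^ (3 + 3 * κ) * 2 ^ κ) ≤ 0 :=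
        mul_nonpos_of_nonpos_of_nonneg (not_lt.1 hα) hpos.le
      linarith
    · intro h
      have := mul_pos h hpos
      linarith
  rwa [e] at h4

end Pool.Agent.H516R2.FP
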