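import Pool.Agent.H516R2.FP.Props
import Pool.Agent.H620R2.Gauge2.Trans

/-!
# `P = PH ≠ PSPACE` for a modification of every oracle (helper388)
-/

set_option autoImplicit false

namespace Pool.Agent.H516R2.FP

open Pool.Agent.NPC Pool.Agent.H620R2.Gauge Finset H568R2 Pool.Agent.H676 Pool.Agent.H516R2.EQP
  Pool.Agent.H516R2.EQP2 Pool.Agent.H516R2.EQP3 Pool.Agent.H516R2.EQP4 Pool.Agent.H591R3.PHG

theorem B_pad (K : ℕ) (w : List Bool) :
    ∃ w', padc K (false :: false :: w) = false :: false :: w' := by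
  unfold padc
  exact ⟨_, rfl⟩

theorem B (hp : St_PU) (hps : St_PS) (hc : St_CL) (hdg : St_DG) (hx : St_XSg)
    (hgx : St_GXg) (hco : St_COs) (hcp : St_CP) (hlo : St_LO) (hha : St_HA) (ha3 : St_A3) :
    St_B := by
  intro K _
  obtain ⟨Φ₀, R', hR', hΦ₀, hcode, hpre, hred⟩ := hco K
  obtain ⟨-, hh2, hh3, hh4, hh5⟩ := hha
  refine ⟨R', hR', fun R => ?_⟩
  obtain ⟨Φ, hΦdef⟩ : ∃ Φ : Oracle → Oracle, ∀ B, Φ B = Φ₀ (hat K R B) :=
    ⟨fun B => Φ₀ (hat K R B), fun _ => rfl⟩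
  obtain ⟨hid, C, hH, hC0, hPS⟩ := hps
  obtain ⟨-, -, -, -, hal, -, -⟩ := hp
  have hLoc₀ : Loc Φ₀ := hlo Φ₀ hΦ₀
  have hLoc : Loc Φ := by
    intro B B' w h
    rw [hΦdef, hΦdef]
    apply hLoc₀
    intro z hz
    apply hh4 K R
    intro z' hz'
    exact h z' (hz'.trans hz)
  have hGood : GoodW Φ := by
    have h := hgx Φ₀ hΦ₀ (hat K R) (hh5 K R) (hh4 K R)
    have he : Φ = fun B => Φ₀ (hat K R B) := funext hΦdef
    rw [he]
    exact h
  -- values of `al`
  have hval : ∀ (u : List Bool) (B B' : Oracle), (∀ z : List Bool, z.length ≤ blen u →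
      B z = B' z) → al u B = al u B' := by
    intro u B B' h
    exact hal u B B' (fun z hz => h z (le_of_eq hz.2))
  have g1 : ∃ B, Val Φ hid C B := by
    obtain ⟨B', -, hB'⟩ := hc Φ hid C hLoc hH (fun _ => false) 0 (fun u hu => by
      unfold blen at hu
      omega)
    exact ⟨B', hB'⟩
  have g2 : ∀ B : Oracle, (∀ N : ℕ, ∃ B' : Oracle, Val Φ hid C B' ∧
      ∀ z : List Bool, z.length ≤ N → B' z = B z) → Val Φ hid C B := by
    intro B h u
    obtain ⟨B', hB', he⟩ := h (blen u)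
    have h1 : al u B' = al u B := hval u B' B he
    have hlen : u.length ≤ blen u := by
      unfold blen
      omega
    have h2 : hid u (Φ B') = hid u (Φ B) := by
      apply hH
      intro z hz
      apply hLoc
      intro z' hz'
      exact he z' (by omega)
    have h3 := hB' u
    unfold EQP3.Cond at h3 ⊢
    rw [h1, h2] at h3
    exact h3
  have g3 : ∀ (M : Alg) (B : Oracle) (N : ℕ), Val Φ hid C B → ∃ (B' : Oracle) (N' : ℕ),
      Val Φ hid C B' ∧ (∀ z : List Bool, z.length ≤ N → B' z = B z) ∧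
      ∀ B'' : Oracle, Val Φ hid C B'' → (∀ z : List Bool, z.length ≤ N' → B'' z = B' z) →
        ∃ x, ¬ (M.out (Φ B'') x = some [true] ↔ al (false :: false :: x) B'' = 1 / 2) := by
    intro M B N hB
    obtain ⟨B', x, hB', he, hbad⟩ := hx Φ hid C hGood hLoc hH hC0 M B N hB
    obtain ⟨qb, hqb⟩ := M.out_local
    refine ⟨B', blen (false :: false :: x) + qb.eval x.length, hB', he, fun B'' _ h'' => ⟨x, ?_⟩⟩
    have h1 : al (false :: false :: x) B'' = al (false :: false :: x) B' :=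
      hval _ _ _ (fun z hz => h'' z (by omega))
    have h2 : M.out (Φ B'') x = M.out (Φ B') x := by
      obtain ⟨Q, -, hQ2, hQ3⟩ := hqb (Φ B') x
      apply hQ3
      intro q hq
      apply hLoc
      intro z hz
      apply h''
      have := hQ2 q hq
      omega
    rw [h1, h2]
    exact hbad
  haveI : Nonempty Alg := ⟨⟨_, CC.const_polyTime [], 0⟩⟩
  obtain ⟨B, hB, hbad⟩ := hdg Alg (Val Φ hid C)
    (fun B M => ∃ x, ¬ (M.out (Φ B) x = some [true] ↔ al (false :: false :: x) B = 1 / 2))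
    g1 g2 g3
  -- the blocks of `Φ B`
  have hblo : ∀ x, blo K (Φ B) x = tlU (ub x) B := by
    intro x
    funext z
    unfold blo tlU
    obtain ⟨w', hw'⟩ := B_pad K (ub x ++ z)
    rw [hΦdef, hw', hpre, ← hw', hh2]
  refine ⟨Φ B, fun y hy => ?_, fun L => ⟨fun h => ?_, fun h => h.isPH⟩,
    {x | al (false :: false :: x) B = 1 / 2}, ?_, ?_⟩
  · have hy1 : ∀ e x, y ≠ code R' e x := fun e x h => hy (Or.inl ⟨e, x, h⟩)
    have hy2 : ∀ v, y ≠ padc K v := fun v h => hy (Or.inr ⟨v, h⟩)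
    rw [hΦdef, hcode _ _ hy1, hh3 K R B y hy2]
  · refine hcp (Φ B) (fun M p => ?_) L h
    obtain ⟨g, hg, hg'⟩ := hred M p
    refine ⟨g, hg, fun x => ?_⟩
    rw [hΦdef]
    exact hg' _ x
  · have h1 := ha3 K (Φ B)
    have h2 : {x | 0 < alpha (blo K (Φ B) x) (kap (ub x))} =
        {x | al (false :: false :: x) B = 1 / 2} := by
      ext x
      rw [Set.mem_setOf_eq, Set.mem_setOf_eq, hblo x]
      have h3 : al (false :: false :: x) B = alpha (tlU (ub x) B) (kap (ub x)) := rfl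
      rw [← h3]
      rcases (hB (false :: false :: x)).1 with h | h
      · rw [h]
        norm_num
      · rw [h]
        norm_num
    rw [h2] at h1
    exact h1
  · rintro ⟨V, ⟨M, hM⟩, hL⟩
    obtain ⟨x, hx⟩ := hbad M
    apply hx
    rw [hM x]
    constructor
    · intro h
      exact (hL x).2 (Option.some.inj h)
    · intro h
      rw [(hL x).1 h]

theorem BT (hB : St_B) (hsp : St_SPg) : St_BT := by
  intro ε hε
  obtain ⟨K₀, hK₀⟩ := hsp ε hε
  obtain ⟨R', hR', hch⟩ := hB (max K₀ 1) (le_max_right _ _)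
  refine ⟨Tcd (max K₀ 1) R', hK₀ (max K₀ 1) (le_max_left _ _) R' hR', fun R => ?_⟩
  obtain ⟨A, hA, hPH, L, hL, hLP⟩ := hch R
  refine ⟨A, hA, ?_, ?_⟩
  · refine ⟨fun _ => rfl, fun _ L => ⟨fun h => h.isNP, fun h => (hPH L).1 h.isPH⟩⟩
  · refine ⟨fun h => ?_, fun h => absurd h (by decide)⟩
    exfalso
    apply hLP
    exact (hPH L).1 ((h L).2 hL).isPH

end Pool.Agent.H516R2.FP
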