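import Pool.Agent.H516R2.FP.Props
import Pool.Agent.H620R2.Gauge.C
import Pool.Agent.H620R2.Gauge.Q
import Pool.Agent.H620R2.Gauge.Upper
import Pool.Agent.H620R2.Gauge2.Trans

/-!
# Task C: `P = PSPACE` after a change in a thin set
-/

set_option autoImplicit false

namespace Pool.Agent.H516R2.FP

open Pool.Agent.NPC Pool.Agent.H620R2.Gauge Finset H568R2 Pool.Agent.H676 Pool.Agent.H516R2.EQP
  Pool.Agent.H516R2.EQP2 Pool.Agent.H516R2.EQP3 Pool.Agent.H516R2.EQP4 Pool.Agent.H591R3.PHG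

theorem C : St_C := by
  classical
  intro ε hε
  obtain ⟨K, hK⟩ := exists_nat_gt (1 / ε)
  have hK' : 1 < ε * K := by
    rw [div_lt_iff₀ hε] at hK
    linarith
  obtain ⟨R', Φ, hR, hΦ, hΦO⟩ := exists_coding K
  have hsp := sparse R' hR hε hK'
  refine ⟨{y | ∃ e x, y = code R' e x}, ?_, fun R => ⟨Φ R, ?_, ?_⟩⟩
  · refine hsp.mono fun N hN => ?_
    refine le_trans (le_of_eq ?_) hN
    congr 2
  · intro y hy
    exact hΦ R y fun e x h => hy ⟨e, x, h⟩
  · have hard : ∀ L, IsPSPACE (Φ R) L → IsP (Φ R) L :=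
      fun L hL => isP_of_reduces (hΦO R L hL)
    exact ⟨⟨fun _ => rfl, fun _ L => ⟨fun h => h.isNP, fun h => hard L h.isPSPACE⟩⟩,
      ⟨fun _ => rfl, fun _ L => ⟨fun h => h.isPSPACE, fun h => (hard L h).isNP⟩⟩⟩

end Pool.Agent.H516R2.FP
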