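import Pool.Agent.H516R2.FP.Props
import Pool.Agent.H620R2.GaugeX.NonNullX
import Pool.Agent.H620R2.Gauge.Q

set_option autoImplicit false

/-!
# Task D: exponential time in `ZPP` after a change in a thin set
-/

namespace Pool.Agent.H516R2.FP

open Pool.Agent.NPC Pool.Agent.H620R2.Gauge Finset H568R2 Pool.Agent.H676

open Classical in
theorem D : St_D := by
  intro ε hε
  obtain ⟨K, hK⟩ := exists_nat_gt (1 / ε)
  have hK1 : 1 < ε * K := by
    rw [div_lt_iff₀ hε] at hK
    linarith
  obtain ⟨g, hg⟩ := exists_idx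
  obtain ⟨al, hal⟩ := exists_alg
  obtain ⟨n, hn, hn2⟩ := exists_diag al
  choose bd hbd using pspace_task
  set R : ℕ → Polynomial ℕ := fun e => (Polynomial.X + Polynomial.C (e + 1)) ^ K with hR
  have hRe : ∀ e n, (n + e + 1) ^ K ≤ (R e).eval n := by
    intro e n
    rw [hR]
    simp only [Polynomial.eval_pow, Polynomial.eval_add, Polynomial.eval_X, Polynomial.eval_C]
    rw [add_assoc]
  set p : ℕ → Polynomial ℕ := fun e => pX bd (g e) with hp
  obtain ⟨Φ, hΦ⟩ := exists_stageE R p (fun e => QX al n bd (g e))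
    (fun e x A => QX_local hn hn2 bd (g e) x A)
  refine ⟨{y : List Bool | ∃ e z, y = code R e z}, ?_, fun B => ⟨Φ B, ?_, ?_⟩⟩
  · have h := sparse R hRe hε hK1
    unfold Thin
    filter_upwards [h] with N hN
    refine le_trans (le_of_eq ?_) hN
    congr 2
  · intro y hy
    exact (hΦ B).1 y fun e z h => hy ⟨e, z, h⟩
  · have hZ : ∀ e, IsZPP (Φ B) {x | QX al n bd (g e) x (Φ B)} := by
      intro e
      refine isZPP_of_code R p (Φ B) e _ ?_ ?_
      · intro x b w hw h
        exact ((hΦ B).2 e x b).1 w hw h
      · intro x b h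
        exact ((hΦ B).2 e x b).2 h
    constructor
    · rintro L (⟨M, hM⟩ | ⟨M, q, hM⟩)
      · obtain ⟨e, he⟩ := hg (some (Sum.inl (M, M.p)))
        have h1 := hZ e
        rw [he] at h1
        have h2 : L = {x | QX al n bd (some (Sum.inl (M, M.p))) x (Φ B)} := by
          ext x
          obtain ⟨z, hz, hx⟩ := hM x
          simp only [Set.mem_ofPred_eq, QX]
          rw [hz, hx, Option.some.injEq]
        rw [h2]
        exact h1
      · obtain ⟨e, he⟩ := hg (some (Sum.inr (M, q)))
        have h1 := hZ e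
        rw [he] at h1
        have h2 : L = {x | QX al n bd (some (Sum.inr (M, q))) x (Φ B)} := by
          ext x
          exact hbd M q (Φ B) L hM x
        rw [h2]
        exact h1
    · obtain ⟨e, he⟩ := hg none
      have h1 := hZ e
      rw [he] at h1
      refine ⟨_, h1, ?_⟩
      rintro ⟨V, ⟨M, hM⟩, hV⟩
      obtain ⟨j, rfl⟩ := hal M
      have h2 := hV (List.replicate (n j) true)
      simp only [Set.mem_ofPred_eq, QX] at h2
      by_cases h3 : V (List.replicate (n j) true) = [true]
      · obtain ⟨j', h4, h5⟩ := h2.2 h3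
        have h6 : j' = j := by
          apply hn
          have h7 := congrArg List.length h4
          rw [List.length_replicate, List.length_replicate] at h7
          exact h7.symm
        subst h6
        apply h5
        rw [hM, h3]
      · apply h3
        apply h2.1
        refine ⟨j, rfl, ?_⟩
        rw [hM]
        intro h8
        exact h3 (Option.some.inj h8)

theorem DT (hD : St_D) : St_DT := by
  intro ε hε
  obtain ⟨T, hT, h⟩ := hD ε hε
  refine ⟨T, hT, fun R => ?_⟩
  obtain ⟨A, hA, h1, L, h2, h3⟩ := h R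
  refine ⟨A, hA, ?_, ?_⟩
  · simp only [Bool.false_eq_true, iff_false]
    intro h4
    exact h3 ((h4 L).2 (IsZPP.isNP h2))
  · simp only [iff_true]
    intro L'
    exact ⟨fun h4 => h4.isPSPACE, fun h4 => IsZPP.isNP (h1 L' (Or.inr h4))⟩

end Pool.Agent.H516R2.FP
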