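import Pool.Agent.H516R2.FP.Props
import Pool.Agent.H620R2.Gauge2.Base
import Pool.Agent.H620R2.Gauge.A2

/-! # Task E1: the complement of the language `colang` is in `NP` relative to the oracle -/

set_option autoImplicit false

namespace Pool.Agent.H516R2.FP

open Pool.Agent.NPC Pool.Agent.H620R2.Gauge Finset H568R2 Pool.Agent.H676 Pool.Agent.H516R2.EQP
  Pool.Agent.H516R2.EQP2 Pool.Agent.H516R2.EQP3 Pool.Agent.H516R2.EQP4 Pool.Agent.H591R3.PHG

namespace E1x

/-- the question -/
def Q (K : ℕ) (y : List Bool) : List (List Bool) :=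
  [padc K ((unpair y).2 ++ (unpair y).1)]

/-- the verdict -/
def H (y : List Bool × List Bool) : List Bool :=
  [decide ((unpair y.1).1.length = (unpair y.1).2.length) && y.2.all (fun b => b)]

theorem pow_up {f : List Bool → ℕ} (hf : UPoly f) (K : ℕ) : UPoly (fun y => f y ^ K) := by
  induction K with
  | zero => exact (UPoly.const 1)
  | succ c ih => exact UPoly.mul ih hf

theorem poly_Q (K : ℕ) : NPC.Poly (Q K) := by
  have hw : NPC.Poly (fun y : List Bool => (unpair y).1) := NPC.Poly.fst poly_unpair
  have hx : NPC.Poly (fun y : List Bool => (unpair y).2) := NPC.Poly.snd poly_unpair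
  have hv : NPC.Poly (fun y : List Bool => (unpair y).2 ++ (unpair y).1) := NPC.Poly.append hx hw
  have hr : NPC.Poly (fun y : List Bool =>
      List.replicate (((unpair y).2 ++ (unpair y).1).length ^ K) false) :=
    (NPC.Poly.map (F := fun (_ : List Bool) (_ : Unit) => false) (pow_up (UPoly.length hv) K)
      (NPC.Poly.const false)).congr fun u => by simp
  have h : NPC.Poly (fun y : List Bool => [false :: (((unpair y).2 ++ (unpair y).1) ++
      true :: List.replicate (((unpair y).2 ++ (unpair y).1).length ^ K) false)]) :=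
    NPC.Poly.cons (NPC.Poly.cons (NPC.Poly.const false) (NPC.Poly.append hv
      (NPC.Poly.cons (NPC.Poly.const true) hr))) (NPC.Poly.const [])
  exact h

theorem poly_H : NPC.Poly H := by
  have hw : NPC.Poly (fun y : List Bool => (unpair y).1) := NPC.Poly.fst poly_unpair
  have hx : NPC.Poly (fun y : List Bool => (unpair y).2) := NPC.Poly.snd poly_unpair
  have hx' : NPC.Poly (fun p : List Bool × List Bool => (unpair p.1).2) :=
    hx.comp (NPC.Poly.fst NPC.Poly.id)
  have hw' : NPC.Poly (fun p : List Bool × List Bool => (unpair p.1).1) :=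
    hw.comp (NPC.Poly.fst NPC.Poly.id)
  unfold H
  refine NPC.Poly.cons (NPC.Poly.and (NPC.Poly.decide_eq (NPC.Poly.length hw')
    (NPC.Poly.length hx')) ?_) (NPC.Poly.const [])
  exact NPC.Poly.all (p := fun (_ : List Bool × List Bool) (b : Bool) => b)
    (NPC.Poly.snd NPC.Poly.id) (NPC.Poly.snd NPC.Poly.id)

end E1x

theorem E1 : St_E1 := by
  intro K A
  refine ⟨fun y => E1x.H (y, (E1x.Q K y).map A), Polynomial.X,
    IsFP.tt (E1x.poly_Q K) E1x.poly_H, fun x => ?_⟩
  have key : ∀ w : List Bool, E1x.H (pairBits w x, (E1x.Q K (pairBits w x)).map A) = [true] ↔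
      (w.length = x.length ∧ A (padc K (x ++ w)) = true) := by
    intro w
    unfold E1x.H E1x.Q
    simp only [unpair_pairBits, List.cons.injEq, and_true, Bool.and_eq_true, decide_eq_true_eq,
      List.all_eq_true, List.map_cons, List.map_nil, List.mem_singleton, forall_eq]
  constructor
  · intro hx
    have hx' : ¬ ∀ z : List Bool, z.length = x.length → A (padc K (x ++ z)) = false := hx
    push_neg at hx'
    obtain ⟨z, hz, hA⟩ := hx'
    refine ⟨z, by rw [Polynomial.eval_X, hz], (key z).mpr ⟨hz, ?_⟩⟩
    simpa using hA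
  · rintro ⟨w, _, hw⟩ hx
    obtain ⟨h1, h2⟩ := (key w).mp hw
    have h3 : A (padc K (x ++ w)) = false := hx w h1
    rw [h3] at h2
    exact absurd h2 (by simp)

end Pool.Agent.H516R2.FP
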