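import Pool.Agent.H516R2.FP.Props
import Pool.Agent.H516R2.EQP3.DG
import Pool.Agent.H516R2.EQP4.SPg
import Pool.Agent.H620R2.Gauge.A1

/-!
# Task E2 (helper896): `NP ≠ coNP` after a change of the padded strings
-/

set_option autoImplicit false

namespace Pool.Agent.H516R2.FP

open Pool.Agent.NPC Pool.Agent.H620R2.Gauge Finset H568R2 Pool.Agent.H676 Pool.Agent.H516R2.EQP
  Pool.Agent.H516R2.EQP2 Pool.Agent.H516R2.EQP3 Pool.Agent.H516R2.EQP4 Pool.Agent.H591R3.PHG

theorem E2_poly_le (P : Polynomial ℕ) (n : ℕ) (hn : 1 ≤ n) :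
    P.eval n ≤ P.eval 1 * n ^ P.natDegree := by
  rw [Polynomial.eval_eq_sum_range, Polynomial.eval_eq_sum_range, Finset.sum_mul]
  apply Finset.sum_le_sum
  intro i hi
  rw [one_pow, mul_one]
  apply Nat.mul_le_mul_left
  exact Nat.pow_le_pow_right hn (by have := Finset.mem_range.1 hi; omega)

/-- exponentials beat polynomials -/
theorem E2_exp (P : Polynomial ℕ) (N : ℕ) : ∃ n, N ≤ n ∧ P.eval n < 2 ^ n := by
  have h1 := tendsto_pow_const_div_const_pow_of_one_lt P.natDegree (r := (2 : ℝ)) (by norm_num)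
  have hpos : (0 : ℝ) < 1 / (P.eval 1 + 1) := by positivity
  obtain ⟨n, h2, h3⟩ := ((h1.eventually (eventually_lt_nhds hpos)).and
    (Filter.eventually_ge_atTop (max N 1))).exists
  refine ⟨n, (le_max_left _ _).trans h3, ?_⟩
  rw [div_lt_div_iff₀ (by positivity) (by positivity), one_mul] at h2
  have h4 := E2_poly_le P n ((le_max_right _ _).trans h3)
  have h5 : n ^ P.natDegree * (P.eval 1 + 1) < 2 ^ n := by exact_mod_cast h2
  have h6 : P.eval 1 * n ^ P.natDegree ≤ n ^ P.natDegree * (P.eval 1 + 1) := by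
    rw [mul_add, mul_comm]
    omega
  omega

theorem E2_countable : Countable (Polynomial ℕ) := by
  have : Function.Injective (fun p : Polynomial ℕ => (p.toFinsupp.coeff : ℕ →₀ ℕ)) := by
    intro p q h
    ext n
    exact DFunLike.congr_fun h n
  exact this.countable

/-- the algorithm `t.1` with the bound `t.2` is no nondeterministic algorithm for the language -/
def E2_Bad (K : ℕ) (B : Oracle) : Option (Alg × Polynomial ℕ) → Prop
  | none => True
  | some t => ∃ x, ¬ (x ∈ colang K B ↔ ∃ w : List Bool, w.length ≤ t.2.eval x.length ∧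
      t.1.out B (pairBits w x) = some [true])

theorem E2_count (K n : ℕ) (x : List Bool) (Q : Finset (List Bool)) (hQ : Q.card < 2 ^ n) :
    ∃ z : List Bool, z.length = n ∧ padc K (x ++ z) ∉ Q := by
  classical
  by_contra h
  push Not at h
  have h1 : (Finset.univ : Finset (Fin n → Bool)).card ≤ Q.card := by
    apply Finset.card_le_card_of_injOn (fun g => padc K (x ++ List.ofFn g))
    · intro g _
      exact h _ List.length_ofFn
    · intro g _ g' _ hgg
      exact List.ofFn_injective (List.append_cancel_left (SPg_inj hgg))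
  rw [Finset.card_univ, Fintype.card_fun, Fintype.card_bool, Fintype.card_fin] at h1
  omega

theorem E2_step (K : ℕ) (R : Oracle) (t : Option (Alg × Polynomial ℕ)) (B : Oracle) (N : ℕ)
    (hB : ∀ y, (∀ v, y ≠ padc K v) → B y = R y) : ∃ (B' : Oracle) (N' : ℕ),
      (∀ y, (∀ v, y ≠ padc K v) → B' y = R y) ∧
      (∀ z : List Bool, z.length ≤ N → B' z = B z) ∧
      ∀ B'' : Oracle, (∀ y, (∀ v, y ≠ padc K v) → B'' y = R y) →
        (∀ z : List Bool, z.length ≤ N' → B'' z = B' z) → E2_Bad K B'' t := by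
  classical
  rcases t with _ | ⟨M, p⟩
  · exact ⟨B, 0, hB, fun _ _ => rfl, fun _ _ _ => trivial⟩
  obtain ⟨qb, hqb⟩ := M.out_local
  obtain ⟨n, hnN, hn⟩ := E2_exp (M.p.comp (Polynomial.C 2 * p + Polynomial.C 1 + Polynomial.X)) N
  rw [Polynomial.eval_comp] at hn
  simp only [Polynomial.eval_add, Polynomial.eval_mul, Polynomial.eval_C, Polynomial.eval_X] at hn
  set l := 2 * p.eval n + 1 + n with hl
  set x : List Bool := List.replicate n true with hx
  have hxn : x.length = n := List.length_replicate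
  have hlen : ∀ w : List Bool, w.length ≤ p.eval n → (pairBits w x).length ≤ l := by
    intro w hw
    rw [length_pairBits, hxn]
    omega
  let B1 : Oracle := fun y => if ∃ z : List Bool, z.length = n ∧ y = padc K (x ++ z) then false
    else B y
  have hB1 : ∀ z : List Bool, z.length = n → B1 (padc K (x ++ z)) = false := fun z hz =>
    if_pos ⟨z, hz, rfl⟩
  have hB1R : ∀ y, (∀ v, y ≠ padc K v) → B1 y = R y := by
    intro y hy
    have : ¬ ∃ z : List Bool, z.length = n ∧ y = padc K (x ++ z) := by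
      rintro ⟨z, -, h⟩
      exact hy _ h
    show (if _ then _ else _) = _
    rw [if_neg this]
    exact hB y hy
  have hpl : ∀ z : List Bool, z.length = n →
      (padc K (x ++ z)).length = 2 * n + (2 * n) ^ K + 2 := by
    intro z hz
    rw [SPg_len, List.length_append, hxn, hz, ← two_mul]
  have hB1N : ∀ z : List Bool, z.length ≤ N → B1 z = B z := by
    intro y hy
    have : ¬ ∃ z : List Bool, z.length = n ∧ y = padc K (x ++ z) := by
      rintro ⟨z, hz, h⟩
      have h1 := hpl z hz
      rw [← h] at h1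
      omega
    show (if _ then _ else _) = _
    rw [if_neg this]
  by_cases hw : ∃ w : List Bool, w.length ≤ p.eval n ∧ M.out B1 (pairBits w x) = some [true]
  · obtain ⟨w, hw1, hw2⟩ := hw
    obtain ⟨Q, hQ1, hQ2, hQ3⟩ := hqb B1 (pairBits w x)
    have hQ4 : Q.card < 2 ^ n := lt_of_le_of_lt (hQ1.trans (eval_mono _ (hlen w hw1))) hn
    obtain ⟨z, hz1, hz2⟩ := E2_count K n x Q hQ4
    have hup : ∀ y, y ≠ padc K (x ++ z) →
        Function.update B1 (padc K (x ++ z)) true y = B1 y := fun y hy =>
      Function.update_of_ne hy _ _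
    refine ⟨Function.update B1 (padc K (x ++ z)) true,
      max (qb.eval l) (2 * n + (2 * n) ^ K + 2), ?_, ?_, ?_⟩
    · intro y hy
      rw [hup y (hy _)]
      exact hB1R y hy
    · intro y hy
      rw [hup y, hB1N y hy]
      intro h
      have h1 := hpl z hz1
      rw [← h] at h1
      omega
    · intro B'' _ hB''
      refine ⟨x, ?_⟩
      have h1 : M.out B'' (pairBits w x) = some [true] := by
        rw [hQ3 B'', hw2]
        intro q hq
        have h2 := (hQ2 q hq).trans (eval_mono qb (hlen w hw1))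
        rw [hB'' q (h2.trans (le_max_left _ _)), hup q]
        intro h3
        rw [h3] at hq
        exact hz2 hq
      intro hiff
      have h4 : x ∈ colang K B'' := hiff.2 ⟨w, by rw [hxn]; exact hw1, h1⟩
      have h5 := h4 z (by rw [hxn]; exact hz1)
      rw [hB'' _ (by rw [hpl z hz1]; exact le_max_right _ _), Function.update_self] at h5
      exact absurd h5 (by decide)
  · refine ⟨B1, max (qb.eval l) (2 * n + (2 * n) ^ K + 2), hB1R, hB1N, ?_⟩
    intro B'' _ hB''
    refine ⟨x, ?_⟩
    intro hiff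
    have h1 : x ∈ colang K B'' := by
      intro z hz
      rw [hxn] at hz
      rw [hB'' _ (by rw [hpl z hz]; exact le_max_right _ _)]
      exact hB1 z hz
    obtain ⟨w, hw1, hw2⟩ := hiff.1 h1
    rw [hxn] at hw1
    apply hw
    refine ⟨w, hw1, ?_⟩
    obtain ⟨Q, hQ1, hQ2, hQ3⟩ := hqb B1 (pairBits w x)
    rw [← hQ3 B'']
    · exact hw2
    · intro q hq
      have h2 := (hQ2 q hq).trans (eval_mono qb (hlen w hw1))
      exact hB'' q (h2.trans (le_max_left _ _))

theorem E2 : St_E2 := by
  intro K R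
  have hc : Countable (Polynomial ℕ) := E2_countable
  obtain ⟨A, hA1, hA2⟩ := DG (Option (Alg × Polynomial ℕ))
    (fun B => ∀ y, (∀ v, y ≠ padc K v) → B y = R y) (E2_Bad K) ⟨R, fun _ _ => rfl⟩
    (by
      intro B hB y hy
      obtain ⟨B', h1, h2⟩ := hB y.length
      rw [← h2 y le_rfl]
      exact h1 y hy)
    (fun t B N hB => E2_step K R t B N hB)
  refine ⟨A, hA1, ?_⟩
  rintro ⟨V, p, ⟨M, hM⟩, hV⟩
  obtain ⟨x, hx⟩ := hA2 (some (M, p))
  apply hx
  rw [hV x]
  simp only [hM, Option.some.injEq]

end Pool.Agent.H516R2.FP
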