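import Pool.Agent.H516R2.FP.Props
import Pool.Agent.H620R2.Gauge2.Trans

/-!
# The pattern `P ≠ NP ≠ PSPACE` after a change in a thin set
-/

set_option autoImplicit false

namespace Pool.Agent.H516R2.FP

open Pool.Agent.NPC Pool.Agent.H620R2.Gauge Finset H568R2 Pool.Agent.H676 Pool.Agent.H516R2.EQP
  Pool.Agent.H516R2.EQP2 Pool.Agent.H516R2.EQP3 Pool.Agent.H516R2.EQP4 Pool.Agent.H591R3.PHG

theorem E3 (h1 : St_E1) (h2 : St_E2) (hS : St_SPg) : St_E3 := by
  classical
  intro ε hε
  obtain ⟨K, hK⟩ := hS ε hε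
  have hT := hK K le_rfl (fun e => (Polynomial.X + Polynomial.C (e + 1)) ^ K) (by
    intro e n
    simp [add_assoc])
  refine ⟨{y | ∃ v, y = padc K v}, ?_, ?_⟩
  · unfold Thin
    filter_upwards [hT] with N hN
    refine le_trans ?_ hN
    exact_mod_cast Finset.card_le_card (by
      intro i hi
      rw [Finset.mem_filter] at hi ⊢
      exact ⟨hi.1, Or.inr hi.2⟩)
  · intro R
    obtain ⟨A, hA, hn⟩ := h2 K R
    refine ⟨A, fun y hy => hA y (fun v hv => hy ⟨v, hv⟩), ?_, ?_⟩
    · simp only [Bool.false_eq_true, iff_false]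
      intro h
      have h3 : IsP A (colang K A)ᶜ := (h _).2 (h1 K A)
      have h4 := h3.compl
      rw [compl_compl] at h4
      exact hn ((h _).1 h4)
    · simp only [Bool.false_eq_true, iff_false]
      intro h
      have h3 : IsPSPACE A (colang K A)ᶜ := (h _).1 (h1 K A)
      have h4 := h3.compl
      rw [compl_compl] at h4
      exact hn ((h _).2 h4)

end Pool.Agent.H516R2.FP
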