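import Pool.Agent.H516R2.FP.Props

/-!
# Task F: unions of thin sets
-/

set_option autoImplicit false

namespace Pool.Agent.H516R2.FP

open Filter

theorem F : St_F := by
  intro ε T T' hε h h'
  unfold Thin at h h' ⊢
  have hlog : Tendsto (fun N : ℕ => Real.logb 2 N) atTop atTop :=
    (Real.tendsto_logb_atTop (by norm_num)).comp tendsto_natCast_atTop_atTop
  have hu : Tendsto (fun N : ℕ => (Real.logb 2 N) ^ (ε / 2)) atTop atTop :=
    (tendsto_rpow_atTop (by positivity)).comp hlog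
  filter_upwards [h, h', hu.eventually_ge_atTop 2, hlog.eventually_ge_atTop 0] with N h1 h2 h3 h4
  classical
  have hsq : ((Real.logb 2 N) ^ (ε / 2)) ^ (2 : ℕ) = (Real.logb 2 N) ^ ε := by
    rw [← Real.rpow_natCast, ← Real.rpow_mul h4]
    congr 1
    push_cast
    ring
  have hmain : (2 : ℝ) ^ ((Real.logb 2 N) ^ (ε / 2)) + 2 ^ ((Real.logb 2 N) ^ (ε / 2)) ≤
      2 ^ ((Real.logb 2 N) ^ ε) := by
    rw [← hsq]
    have h5 : (2 : ℝ) ^ ((Real.logb 2 N) ^ (ε / 2)) + 2 ^ ((Real.logb 2 N) ^ (ε / 2)) =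
        2 ^ (1 + (Real.logb 2 N) ^ (ε / 2)) := by
      rw [Real.rpow_add (by norm_num), Real.rpow_one]
      ring
    rw [h5]
    refine Real.rpow_le_rpow_of_exponent_le (by norm_num) ?_
    nlinarith
  refine le_trans ?_ ((add_le_add h1 h2).trans hmain)
  rw [← Nat.cast_add]
  refine Nat.cast_le.2 (le_trans (Finset.card_le_card ?_) (Finset.card_union_le _ _))
  intro i hi
  obtain ⟨hi1, hi2⟩ := (@Finset.mem_filter _ _ (_) _ _).1 hi
  apply Finset.mem_union.2
  rcases hi2 with h | h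
  · exact Or.inl (Finset.mem_filter.2 ⟨hi1, h⟩)
  · exact Or.inr (Finset.mem_filter.2 ⟨hi1, h⟩)

end Pool.Agent.H516R2.FP
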