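import Pool.Agent.H516R2.EQP4.All
import Pool.Agent.H516R2.EQP4.NNg
import Pool.Agent.H516R2.FP.A1
import Pool.Agent.H516R2.FP.A2
import Pool.Agent.H516R2.FP.A3
import Pool.Agent.H516R2.FP.B
import Pool.Agent.H516R2.FP.C
import Pool.Agent.H516R2.FP.D
import Pool.Agent.H516R2.FP.E1
import Pool.Agent.H516R2.FP.E2
import Pool.Agent.H516R2.FP.E3
import Pool.Agent.H516R2.FP.F
import Pool.Agent.H516R2.FP.G1
import Pool.Agent.H516R2.FP.G2
import Pool.Agent.H516R2.FP.H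

/-! The assembly of the four patterns. -/

set_option autoImplicit false

namespace Pool.Agent.H516R2.FP

open Pool.Agent.NPC Pool.Agent.H620R2.Gauge Pool.Agent.H516R2.EQP Pool.Agent.H516R2.EQP2
  Pool.Agent.H516R2.EQP3 Pool.Agent.H516R2.EQP4

theorem all_H :
    (∀ f : ℕ → ℝ,
      (∀ O : Set Oracle, (∃ a b : Bool, (a = true ∨ b = true) ∧ ∀ A, Pat a b A → A ∈ O) →
        (∀ A ∈ O, ∀ L, IsNP A L → WithAdvice (IsNP A) Lᶜ) → (Null f O ↔ Star f)) ∧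
      (Null f {A : Oracle | Pat false false A} ↔ ∀ C : ℝ, ∃ᶠ N : ℕ in Filter.atTop, f N ≤ C)) ∧
    ∀ ε : ℝ, 0 < ε → ∃ T : Set (List Bool), Thin ε T ∧
      ∀ (R : Oracle) (a b : Bool), ∃ A : Oracle, (∀ y, y ∉ T → A y = R y) ∧ Pat a b A :=
  H NNg C (BT (B all_PU PS all_CL DG (XSg all_PU all_HY all_CL BL all_VL)
    (GXg all_PU RT (SW LO RT)) COs CP LO all_HA (A3 A1 A2)) SPg) (DT D) (E3 E1 E2 SPg) F G1 G2

end Pool.Agent.H516R2.FP
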