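import Pool.Agent.H516R2.FP.Props
import Pool.Agent.H620R2.Gauge2.CoverN
import Pool.Agent.H620R2.Gauge2.Trans
import Pool.Agent.H620R2.Gauge2.V7

/-!
# The four patterns: assembly
-/

set_option autoImplicit false

namespace Pool.Agent.H516R2.FP

open Pool.Agent.NPC Pool.Agent.H620R2.Gauge Finset H568R2 Pool.Agent.H676 Pool.Agent.H516R2.EQP
  Pool.Agent.H516R2.EQP2 Pool.Agent.H516R2.EQP3 Pool.Agent.H516R2.EQP4 Pool.Agent.H591R3.PHG
  MeasureTheory

/-- the condition on the gauge -/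
def Star (f : ℕ → ℝ) : Prop :=
  ∀ ε : ℝ, 0 < ε → ∃ᶠ N : ℕ in Filter.atTop, f N ≤ 2 ^ (Real.logb 2 N) ^ ε

theorem H_null {f : ℕ → ℝ} (hf : Star f) {O : Set Oracle}
    (hO : ∀ A ∈ O, ∀ L, IsNP A L → WithAdvice (IsNP A) Lᶜ) : Null f O := by
  have hN : Null f {A : Oracle | WithAdvice (IsNP A) (hitLang A)ᶜ} :=
    nullN hf _ fun A hA => hA
  exact hN.mono fun A hA => hO A hA _ (hitLang_np A)

theorem H_adv {a b : Bool} (h : a = true ∨ b = true) {A : Oracle} (hA : Pat a b A) :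
    ∀ L, IsNP A L → WithAdvice (IsNP A) Lᶜ := by
  intro L hL
  rcases h with h | h
  · have h1 := hA.1.2 h
    exact ((h1 L).2 hL).compl.isNP.withAdvice
  · have h1 := hA.2.2 h
    exact ((h1 _).2 ((h1 L).1 hL).compl).withAdvice

theorem H_iff (hnn : St_NNg) {a b : Bool} (hch : St_Ch a b) (f : ℕ → ℝ) (O : Set Oracle)
    (h1 : ∀ A, Pat a b A → A ∈ O) (h2 : ∀ A ∈ O, ∀ L, IsNP A L → WithAdvice (IsNP A) Lᶜ) :
    Null f O ↔ Star f := by
  constructor
  · intro hn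
    by_contra hcon
    unfold Star at hcon
    push Not at hcon
    obtain ⟨ε, hε, hf⟩ := hcon
    obtain ⟨T, hT, hR⟩ := hch ε hε
    refine hnn f T O ∅ ?_ (by simp) (fun R _ => ?_) hn
    · unfold Thin at hT
      filter_upwards [hT, hf] with N h3 h4
      exact h3.trans h4.le
    · obtain ⟨A, h3, h4⟩ := hR R
      exact ⟨A, h1 A h4, h3⟩
  · intro hf
    exact H_null hf h2

theorem H_star0 : Star (fun _ => 0) := by
  intro ε _
  exact Filter.Frequently.of_forall fun N => by positivity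

theorem H_pos (hg1 : St_G1) : 0 < ranO {A : Oracle | Pat false false A} := by
  classical
  have h1 : ranO {A : Oracle | ∀ L, IsNP A L → WithAdvice (IsNP A) Lᶜ} = 0 :=
    hg1 _ (H_null H_star0 fun A hA => hA)
  have h2 : (Set.univ : Set Oracle) ⊆ {A : Oracle | Pat false false A} ∪
      {A : Oracle | ∀ L, IsNP A L → WithAdvice (IsNP A) Lᶜ} := by
    intro A _
    by_cases hA : ∀ L, IsNP A L → WithAdvice (IsNP A) Lᶜ
    · exact Or.inr hA
    · left
      refine ⟨⟨fun h => absurd (H_adv (a := true) (b := decide (∀ L, IsNP A L ↔ IsPSPACE A L))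
        (Or.inl rfl) ⟨by simp [h], by simp⟩) hA, fun h => by simp at h⟩,
        ⟨fun h => absurd (H_adv (a := decide (∀ L, IsP A L ↔ IsNP A L)) (b := true)
        (Or.inr rfl) ⟨by simp, by simp [h]⟩) hA, fun h => by simp at h⟩⟩
  have h3 : (1 : ENNReal) ≤ ranO {A : Oracle | Pat false false A} + 0 := by
    calc (1 : ENNReal) = ranO (Set.univ : Set Oracle) := (measure_univ).symm
      _ ≤ ranO ({A : Oracle | Pat false false A} ∪
        {A : Oracle | ∀ L, IsNP A L → WithAdvice (IsNP A) Lᶜ}) := measure_mono h2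
      _ ≤ ranO {A : Oracle | Pat false false A} +
        ranO {A : Oracle | ∀ L, IsNP A L → WithAdvice (IsNP A) Lᶜ} := measure_union_le _ _
      _ = _ := by rw [h1]
  rw [add_zero] at h3
  exact lt_of_lt_of_le one_pos h3

theorem H (hnn : St_NNg) (hc : St_Ch true true) (hb : St_Ch true false) (hd : St_Ch false true)
    (he : St_Ch false false) (hF : St_F) (hg1 : St_G1) (hg2 : St_G2) :
    (∀ f : ℕ → ℝ,
      (∀ O : Set Oracle, (∃ a b : Bool, (a = true ∨ b = true) ∧ ∀ A, Pat a b A → A ∈ O) →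
        (∀ A ∈ O, ∀ L, IsNP A L → WithAdvice (IsNP A) Lᶜ) → (Null f O ↔ Star f)) ∧
      (Null f {A : Oracle | Pat false false A} ↔ ∀ C : ℝ, ∃ᶠ N : ℕ in Filter.atTop, f N ≤ C)) ∧
    ∀ ε : ℝ, 0 < ε → ∃ T : Set (List Bool), Thin ε T ∧
      ∀ (R : Oracle) (a b : Bool), ∃ A : Oracle, (∀ y, y ∉ T → A y = R y) ∧ Pat a b A := by
  refine ⟨fun f => ⟨?_, hg2 f _ (H_pos hg1)⟩, fun ε hε => ?_⟩
  · rintro O ⟨a, b, h0, h1⟩ h2
    match a, b with
    | true, true => exact H_iff hnn hc f O h1 h2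
    | true, false => exact H_iff hnn hb f O h1 h2
    | false, true => exact H_iff hnn hd f O h1 h2
    | false, false => simp at h0
  · have hε2 : 0 < ε / 2 := by positivity
    have hε4 : 0 < ε / 2 / 2 := by positivity
    obtain ⟨T1, hT1, h1⟩ := hc (ε / 2 / 2) hε4
    obtain ⟨T2, hT2, h2⟩ := hb (ε / 2 / 2) hε4
    obtain ⟨T3, hT3, h3⟩ := hd (ε / 2 / 2) hε4
    obtain ⟨T4, hT4, h4⟩ := he (ε / 2 / 2) hε4
    refine ⟨(T1 ∪ T2) ∪ (T3 ∪ T4), hF ε _ _ hε (hF _ _ _ hε2 hT1 hT2) (hF _ _ _ hε2 hT3 hT4), ?_⟩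
    intro R a b
    match a, b with
    | true, true =>
      obtain ⟨A, h5, h6⟩ := h1 R
      exact ⟨A, fun y hy => h5 y fun h => hy (Or.inl (Or.inl h)), h6⟩
    | true, false =>
      obtain ⟨A, h5, h6⟩ := h2 R
      exact ⟨A, fun y hy => h5 y fun h => hy (Or.inl (Or.inr h)), h6⟩
    | false, true =>
      obtain ⟨A, h5, h6⟩ := h3 R
      exact ⟨A, fun y hy => h5 y fun h => hy (Or.inr (Or.inl h)), h6⟩
    | false, false =>
      obtain ⟨A, h5, h6⟩ := h4 R
      exact ⟨A, fun y hy => h5 y fun h => hy (Or.inr (Or.inr h)), h6⟩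

end Pool.Agent.H516R2.FP
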